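import Mathlib
import Pool.Agent.H788R3.Cor2.Spc

/-!
The corona theorem for data `f_1(z), …, f_N(z), G(z, y)` (`f_i` and `G` arbitrary bounded
holomorphic functions) on domains `D ⊂ ℂ × ℂⁿ` fibred over a simply connected plane domain `U`, with
complete Reinhardt fibres `(exp (φ_j (z)) |y_j|)_j ∈ R`, when the functions `φ_j` are convex (or have
harmonic supports), with constants depending only on `N` and `δ`. This contains the strictly
pseudoconvex domains `|z|² + ∑ exp (2 u_j (z)) |y_j|² < 1` with `u_j` convex.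

* `Pool.Agent.H788R3.Cor2.Op2`: solution operator of P. Jones type for `∂V/∂w̄ = μ(w) / G(w, y)` on a
  domain over the half plane with a continuous family of holomorphic retractions onto its slices.
* `Pool.Agent.H788R3.Cor2.Asm2`: bounded solutions of the Bezout equation from the Carleson type
  cutoff functions of the starting library (`Pool.Agent.H720R2.HP.CutN`).
* `Pool.Agent.H788R3.Cor2.{Sieg2, Base, Conc, Spc}`: Riemann map, exhaustion, concrete domains.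
-/

set_option autoImplicit false

open Set Metric

namespace Pool.Agent.Results.MP_ca0fc2_an.ConvexHartogs

/-- The domain over `U` whose fibre over `z` consists of the `y` with
`(exp (φ_j (z)) |y_j|)_j ∈ R`. -/
def Dom {n : ℕ} (U : Set ℂ) (φ : Fin n → ℂ → ℝ) (R : Set (Fin n → ℝ)) : Set (ℂ × (Fin n → ℂ)) :=
  {p | p.1 ∈ U ∧ (fun j => Real.exp (φ j p.1) * ‖p.2 j‖) ∈ R}

/-- The domain `|z|² + ∑ exp (2 u_j (z)) |y_j|² < 1`. -/
def Du {n : ℕ} (u : Fin n → ℂ → ℝ) : Set (ℂ × (Fin n → ℂ)) :=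
  {p | ‖p.1‖ ^ 2 + ∑ j, Real.exp (2 * u j p.1) * ‖p.2 j‖ ^ 2 < 1}

/-- The corona theorem on `D` with constant `C` for all data consisting of `N` functions
`f_i ∈ H^∞(U)` of the first coordinate and one function `G ∈ H^∞(D)`. -/
def Corona (N : ℕ) (δ C : ℝ) {n : ℕ} (U : Set ℂ) (D : Set (ℂ × (Fin n → ℂ))) : Prop :=
  ∀ f : Fin N → ℂ → ℂ, (∀ i, DifferentiableOn ℂ (f i) U) → (∀ i, ∀ z ∈ U, ‖f i z‖ ≤ 1) →
  ∀ G : ℂ × (Fin n → ℂ) → ℂ, DifferentiableOn ℂ G D → (∀ p ∈ D, ‖G p‖ ≤ 1) →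
    (∀ p ∈ D, δ ≤ ∑ i, ‖f i p.1‖ ^ 2 + ‖G p‖ ^ 2) →
  ∃ (g : Fin N → ℂ × (Fin n → ℂ) → ℂ) (g₀ : ℂ × (Fin n → ℂ) → ℂ),
    (∀ i, DifferentiableOn ℂ (g i) D) ∧ DifferentiableOn ℂ g₀ D ∧
    (∀ i, ∀ p ∈ D, ‖g i p‖ ≤ C) ∧ (∀ p ∈ D, ‖g₀ p‖ ≤ C) ∧
    ∀ p ∈ D, ∑ i, f i p.1 * g i p + G p * g₀ p = 1

/-- `φ` has a continuous family of supports of the form `φ c + log |A_c|`, `A_c` holomorphic. -/
def Supported (U : Set ℂ) (φ : ℂ → ℝ) : Prop :=
  ∃ A : ℂ → ℂ → ℂ, (∀ c ∈ U, DifferentiableOn ℂ (A c) U) ∧ (∀ c ∈ U, A c c = 1) ∧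
    (∀ c ∈ U, ∀ z ∈ U, ‖A c z‖ ≤ Real.exp (φ z - φ c)) ∧
    ContinuousOn (fun q : ℂ × ℂ => A q.1 q.2) (U ×ˢ U)

/-- **Corona theorem for functions of one coordinate and one arbitrary function**
on (1) domains over simply connected `U` with complete Reinhardt fibres moving along functions
`φ_j` with supports, (2) in particular with convex `φ_j` of class `C¹` over convex `U`, (3) in
particular on the domains `|z|² + ∑ exp (2 u_j (z)) |y_j|² < 1`, `u_j` convex of class `C¹`. -/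
theorem result (N : ℕ) (δ : ℝ) (hδ : 0 < δ) : ∃ C : ℝ,
    (∀ (n : ℕ) (U : Set ℂ) (φ : Fin n → ℂ → ℝ) (R : Set (Fin n → ℝ)),
      IsOpen U → IsSimplyConnected U → U ≠ univ →
      (∀ j, ContinuousOn (φ j) U) → (∀ j, Supported U (φ j)) →
      IsOpen R → (∀ x ∈ R, ∀ y : Fin n → ℝ, (∀ j, 0 ≤ y j ∧ y j ≤ x j) → y ∈ R) →
      Corona N δ C U (Dom U φ R)) ∧
    (∀ (n : ℕ) (U : Set ℂ) (φ : Fin n → ℂ → ℝ) (R : Set (Fin n → ℝ)),
      IsOpen U → U.Nonempty → U ≠ univ →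
      (∀ j, ConvexOn ℝ U (φ j)) → (∀ j, ContDiffOn ℝ 1 (φ j) U) → Convex ℝ U →
      IsOpen R → (∀ x ∈ R, ∀ y : Fin n → ℝ, (∀ j, 0 ≤ y j ∧ y j ≤ x j) → y ∈ R) →
      Corona N δ C U (Dom U φ R)) ∧
    ∀ (n : ℕ) (u : Fin n → ℂ → ℝ),
      (∀ j, ConvexOn ℝ (ball 0 1) (u j)) → (∀ j, ContDiffOn ℝ 1 (u j) (ball 0 1)) →
      Corona N δ C (ball 0 1) (Du u) := by
  obtain ⟨C, hC⟩ := Pool.Agent.H788R3.Cor2.main1 N δ hδ
  have h1 : ∀ (n : ℕ) (U : Set ℂ) (φ : Fin n → ℂ → ℝ) (R : Set (Fin n → ℝ)),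
      IsOpen U → IsSimplyConnected U → U ≠ univ →
      (∀ j, ContinuousOn (φ j) U) → (∀ j, Supported U (φ j)) →
      IsOpen R → (∀ x ∈ R, ∀ y : Fin n → ℝ, (∀ j, 0 ≤ y j ∧ y j ≤ x j) → y ∈ R) →
      Corona N δ C U (Dom U φ R) := by
    intro n U φ R hU hUc hne hφ hs hR hRc
    have hne' : U.Nonempty := by
      have : SimplyConnectedSpace U := hUc
      obtain ⟨x⟩ := (inferInstance : Nonempty U)
      exact ⟨x.1, x.2⟩
    exact hC n U φ R hU hUc hne' hne hφ hs hR hRc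
  have h2 : ∀ (n : ℕ) (U : Set ℂ) (φ : Fin n → ℂ → ℝ) (R : Set (Fin n → ℝ)),
      IsOpen U → U.Nonempty → U ≠ univ →
      (∀ j, ConvexOn ℝ U (φ j)) → (∀ j, ContDiffOn ℝ 1 (φ j) U) → Convex ℝ U →
      IsOpen R → (∀ x ∈ R, ∀ y : Fin n → ℝ, (∀ j, 0 ≤ y j ∧ y j ≤ x j) → y ∈ R) →
      Corona N δ C U (Dom U φ R) := by
    intro n U φ R hU hne hne' hφ hd hUc hR hRc
    exact h1 n U φ R hU (Pool.Agent.H788R3.Cor2.conv_sc hUc hne) hne'
      (fun j => (hd j).continuousOn)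
      (fun j => Pool.Agent.H788R3.Cor2.conv_supp hU (hφ j) (hd j)) hR hRc
  refine ⟨C, h1, h2, ?_⟩
  intro n u hu hud
  have h3 : Du u = Dom (ball 0 1) (fun j z => u j z + -(1 / 2) * Real.log (1 - ‖z‖ ^ 2))
      {x | ∑ j, x j ^ 2 < 1} := Pool.Agent.H788R3.Cor2.Du_eq u
  rw [h3]
  refine h2 n (ball 0 1) _ _ isOpen_ball ⟨0, mem_ball_self one_pos⟩ ?_ ?_ ?_ (convex_ball 0 1) ?_ ?_
  · intro h
    have h4 : (2 : ℂ) ∈ ball (0 : ℂ) 1 := by
      rw [h]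
      trivial
    rw [mem_ball_zero_iff] at h4
    norm_num at h4
  · intro j
    exact (hu j).add Pool.Agent.H788R3.Cor2.lg_convex
  · intro j
    exact (hud j).add Pool.Agent.H788R3.Cor2.lg_diff
  · exact isOpen_lt (by fun_prop) continuous_const
  · intro x hx y hy
    have hx' : ∑ j, x j ^ 2 < 1 := hx
    change ∑ j, y j ^ 2 < 1
    refine lt_of_le_of_lt (Finset.sum_le_sum fun j _ => ?_) hx'
    have := hy j
    nlinarith [this.1, this.2]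

end Pool.Agent.Results.MP_ca0fc2_an.ConvexHartogs
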