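import Mathlib
import Pool.Agent.H788R3.Cor3.Supp

/-!
The corona theorem, with constants depending only on the number of functions and the lower bound, for
all corona data in a uniform neighbourhood of the data each of which depends on one coordinate only,
on Hartogs domains `e^{φ(z)} |y| < 1` in `ℂ × ℂⁿ`, among them the strictly pseudoconvex domains
`|z|² + e^{2u(z)} (∑ |h_k(z)|²) |y|² < 1` with `u` convex and `h_k` holomorphic, and the unit ball.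

* `Pool.Agent.H788R3.Cor3.{Op3, Asm3, Base3}`: localisation theorem (`base_thm3`): corona data
  `f_1(z), …, f_N(z), G_1(z, y), …, G_M(z, y)` with arbitrary `G_m` have bounded solutions if
  `G_1, …, G_M` have bounded solutions over a sublevel set of the `f_i`.
* `Pool.Agent.H788R3.Cor3.{Ball, Ind}`: the ball, by induction on the number of coordinates used.
* `Pool.Agent.H788R3.Cor3.{Fib, Fin3, Supp}`: Hartogs domains, perturbation, examples.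
-/

set_option autoImplicit false

open Set Metric

namespace Pool.Agent.Results.MP_ca0fc2_an.CoordinateFunctions

/-- `φ` has a continuous family of supports of the form `φ c + log |A_c|`, `A_c` holomorphic. -/
def Supported (U : Set ℂ) (φ : ℂ → ℝ) : Prop :=
  ∃ A : ℂ → ℂ → ℂ, (∀ c ∈ U, DifferentiableOn ℂ (A c) U) ∧ (∀ c ∈ U, A c c = 1) ∧
    (∀ c ∈ U, ∀ z ∈ U, ‖A c z‖ ≤ Real.exp (φ z - φ c)) ∧
    ContinuousOn (fun q : ℂ × ℂ => A q.1 q.2) (U ×ˢ U)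

/-- The Hartogs domain of the `(z, y)`, `z ∈ U`, `e^{φ(z)} |y| < 1`, in `ℂ × ℂⁿ`. -/
def Hartogs (n : ℕ) (U : Set ℂ) (φ : ℂ → ℝ) : Set (ℂ × (Fin n → ℂ)) :=
  {p | p.1 ∈ U ∧ ∑ j, (Real.exp (φ p.1) * ‖p.2 j‖) ^ 2 < 1}

/-- The domain `|z| < 1`, `|z|² + e^{2u(z)} (∑ |h_k(z)|²) |y|² < 1` in `ℂ × ℂⁿ`. -/
def Duh (n : ℕ) {r : ℕ} (u : ℂ → ℝ) (h : Fin r → ℂ → ℂ) : Set (ℂ × (Fin n → ℂ)) :=
  {p | ‖p.1‖ < 1 ∧
    ‖p.1‖ ^ 2 + Real.exp (2 * u p.1) * (∑ k, ‖h k p.1‖ ^ 2) * ∑ j, ‖p.2 j‖ ^ 2 < 1}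

/-- The corona theorem with constant `C` and tolerance `κ` on `D ⊆ ℂ × ℂⁿ`: for all holomorphic
`F i`, `H m`, `F₀` on `D`, bounded by `1`, with `∑ |F i|² + ∑ |H m|² + |F₀|² ≥ δ`, which are
`κ`-close to functions `f i (z)`, `h m (y_{c m})`, `G (y)`, where `G` does not depend on the
coordinates `y_{c m}` different from `y_{j0}`. -/
def SplitCorona (N M : ℕ) (δ κ C : ℝ) {n : ℕ} (D : Set (ℂ × (Fin n → ℂ))) : Prop :=
  ∀ (f : Fin N → ℂ → ℂ) (c : Fin M → Fin n) (j0 : Fin n) (h : Fin M → ℂ → ℂ)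
    (G : (Fin n → ℂ) → ℂ),
    (∀ i, DifferentiableOn ℂ (f i) ((fun p => p.1) '' D)) →
    (∀ i, ∀ z ∈ (fun p => p.1) '' D, ‖f i z‖ ≤ 1) →
    (∀ m, DifferentiableOn ℂ (h m) ((fun p => p.2 (c m)) '' D)) →
    (∀ m, ∀ w ∈ (fun p => p.2 (c m)) '' D, ‖h m w‖ ≤ 1) →
    DifferentiableOn ℂ G ((fun p => p.2) '' D) → (∀ y ∈ (fun p => p.2) '' D, ‖G y‖ ≤ 1) →
    (∀ m, c m ≠ j0 → ∀ y ∈ (fun p => p.2) '' D, ∀ y' ∈ (fun p => p.2) '' D,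
      (∀ l, l ≠ c m → y l = y' l) → G y = G y') →
  ∀ (F : Fin N → ℂ × (Fin n → ℂ) → ℂ) (H : Fin M → ℂ × (Fin n → ℂ) → ℂ)
    (F₀ : ℂ × (Fin n → ℂ) → ℂ),
    (∀ i, DifferentiableOn ℂ (F i) D) → (∀ m, DifferentiableOn ℂ (H m) D) →
    DifferentiableOn ℂ F₀ D →
    (∀ i, ∀ p ∈ D, ‖F i p‖ ≤ 1) → (∀ m, ∀ p ∈ D, ‖H m p‖ ≤ 1) → (∀ p ∈ D, ‖F₀ p‖ ≤ 1) →
    (∀ i, ∀ p ∈ D, ‖F i p - f i p.1‖ ≤ κ) → (∀ m, ∀ p ∈ D, ‖H m p - h m (p.2 (c m))‖ ≤ κ) →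
    (∀ p ∈ D, ‖F₀ p - G p.2‖ ≤ κ) →
    (∀ p ∈ D, δ ≤ ∑ i, ‖F i p‖ ^ 2 + ∑ m, ‖H m p‖ ^ 2 + ‖F₀ p‖ ^ 2) →
    ∃ (g : Fin N → ℂ × (Fin n → ℂ) → ℂ) (k : Fin M → ℂ × (Fin n → ℂ) → ℂ)
      (g₀ : ℂ × (Fin n → ℂ) → ℂ),
      (∀ i, DifferentiableOn ℂ (g i) D) ∧ (∀ m, DifferentiableOn ℂ (k m) D) ∧
      DifferentiableOn ℂ g₀ D ∧
      (∀ i, ∀ p ∈ D, ‖g i p‖ ≤ C) ∧ (∀ m, ∀ p ∈ D, ‖k m p‖ ≤ C) ∧ (∀ p ∈ D, ‖g₀ p‖ ≤ C) ∧
      ∀ p ∈ D, ∑ i, F i p * g i p + ∑ m, H m p * k m p + F₀ p * g₀ p = 1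

/-- **Corona theorem near data depending on one coordinate each.** -/
theorem result (N M : ℕ) (δ : ℝ) (hδ : 0 < δ) : ∃ κ : ℝ, 0 < κ ∧ ∃ C : ℝ,
    (∀ (n : ℕ) (U : Set ℂ) (φ : ℂ → ℝ), IsOpen U → IsSimplyConnected U → U ≠ univ →
      ContinuousOn φ U → Supported U φ → SplitCorona N M δ κ C (Hartogs n U φ)) ∧
    (∀ (n : ℕ) (U : Set ℂ) (φ : ℂ → ℝ), IsOpen U → U.Nonempty → U ≠ univ → Convex ℝ U →
      ConvexOn ℝ U φ → ContDiffOn ℝ 1 φ U → SplitCorona N M δ κ C (Hartogs n U φ)) ∧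
    (∀ (n r : ℕ) (u : ℂ → ℝ) (h : Fin r → ℂ → ℂ), ConvexOn ℝ (ball 0 1) u →
      ContDiffOn ℝ 1 u (ball 0 1) → (∀ k, DifferentiableOn ℂ (h k) (ball 0 1)) →
      (∀ z ∈ ball (0 : ℂ) 1, ∃ k, h k z ≠ 0) → SplitCorona N M δ κ C (Duh n u h)) ∧
    ∀ n : ℕ, SplitCorona N M δ κ C {p : ℂ × (Fin n → ℂ) | ‖p.1‖ ^ 2 + ∑ j, ‖p.2 j‖ ^ 2 < 1} := by
  have hne : ∀ U : Set ℂ, IsSimplyConnected U → U.Nonempty := by
    intro U hUc
    have : SimplyConnectedSpace U := hUc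
    obtain ⟨x⟩ := (inferInstance : Nonempty U)
    exact ⟨x.1, x.2⟩
  obtain ⟨κ, hκ, C, hC⟩ := Pool.Agent.H788R3.Cor3.fib_main N M hδ
  have g2 : ∀ (n : ℕ) (U : Set ℂ) (φ : ℂ → ℝ), IsOpen U → IsSimplyConnected U → U ≠ univ →
      ContinuousOn φ U → Supported U φ →
      SplitCorona N M δ κ C (Hartogs n U φ) := by
    intro n U φ hU hUc hUu hφ hs
    exact hC n U φ hU hUc (hne U hUc) hUu hφ hs
  have g4 : ∀ (n r : ℕ) (u : ℂ → ℝ) (h : Fin r → ℂ → ℂ), ConvexOn ℝ (ball 0 1) u →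
      ContDiffOn ℝ 1 u (ball 0 1) → (∀ k, DifferentiableOn ℂ (h k) (ball 0 1)) →
      (∀ z ∈ ball (0 : ℂ) 1, ∃ k, h k z ≠ 0) → SplitCorona N M δ κ C (Duh n u h) := by
    intro n r u h hu hud hh h0
    have e : Duh n u h = Hartogs n (ball 0 1) (fun z => u z +
        1 / 2 * Real.log (∑ k, ‖h k z‖ ^ 2) + -(1 / 2) * Real.log (1 - ‖z‖ ^ 2)) :=
      Pool.Agent.H788R3.Cor3.Duh_eq u h h0
    rw [e]
    have hb : ball (0 : ℂ) 1 ≠ univ := by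
      intro h
      have h1 : (2 : ℂ) ∈ ball (0 : ℂ) 1 := by rw [h]; trivial
      rw [mem_ball_zero_iff] at h1
      norm_num at h1
    refine g2 n _ _ isOpen_ball (Pool.Agent.H788R3.Cor2.conv_sc (convex_ball 0 1)
      ⟨0, mem_ball_self one_pos⟩) hb ?_ ?_
    · exact (hud.continuousOn.add (Pool.Agent.H788R3.Cor3.hilb_cont hh h0)).add
        Pool.Agent.H788R3.Cor2.lg_diff.continuousOn
    · have s1 : Pool.Agent.H788R3.Cor3.Sup (ball 0 1) u :=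
        Pool.Agent.H788R3.Cor2.conv_supp isOpen_ball hu hud
      have s2 := Pool.Agent.H788R3.Cor3.Sup.hilb hh h0
      have s3 : Pool.Agent.H788R3.Cor3.Sup (ball 0 1) (fun z => -(1 / 2) * Real.log (1 - ‖z‖ ^ 2)) :=
        Pool.Agent.H788R3.Cor2.conv_supp isOpen_ball Pool.Agent.H788R3.Cor2.lg_convex
          Pool.Agent.H788R3.Cor2.lg_diff
      exact (s1.add s2).add s3
  refine ⟨κ, hκ, C, g2, ?_, g4, ?_⟩
  · intro n U φ hU hUn hUu hUv hφ hd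
    exact g2 n U φ hU (Pool.Agent.H788R3.Cor2.conv_sc hUv hUn) hUu hd.continuousOn
      (Pool.Agent.H788R3.Cor2.conv_supp hU hφ hd)
  · intro n
    have e : {p : ℂ × (Fin n → ℂ) | ‖p.1‖ ^ 2 + ∑ j, ‖p.2 j‖ ^ 2 < 1} =
        Duh n (fun _ => 0) (fun (_ : Fin 1) (_ : ℂ) => (1 : ℂ)) := by
      ext p
      have h0 : 0 ≤ ∑ j, ‖p.2 j‖ ^ 2 := Finset.sum_nonneg fun j _ => by positivity
      simp only [Duh, mem_setOf_eq, mul_zero, Real.exp_zero, norm_one, one_pow,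
        Finset.univ_unique, Finset.sum_const, Finset.card_singleton, one_smul, one_mul]
      constructor
      · intro h
        exact ⟨by nlinarith [norm_nonneg p.1], h⟩
      · exact fun h => h.2
    rw [e]
    exact g4 n 1 _ _ (convexOn_const 0 (convex_ball 0 1)) contDiffOn_const
      (fun _ => differentiableOn_const _) (fun _ _ => ⟨0, one_ne_zero⟩)

end Pool.Agent.Results.MP_ca0fc2_an.CoordinateFunctions
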