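import Mathlib
import Pool.Agent.H326R3.CB20

/-!
# Arbitrary corona data on the ball are solvable up to `ε` on Koranyi regions, with uniform bounds

Let `B` be the ball of `ℂ^(n+1)` and let `X` be a set which near every boundary point `p` of `B` is
contained in a Koranyi region `|1 - ⟨z,p⟩| ≤ α (1 - |z|²)` with vertex `p` (`α` may depend on `p`).
For all `δ, ε > 0` and `N` there is a constant `C` such that for *all* corona data `f_1, …, f_N`
(`|f_j| ≤ 1`, `∑ |f_j| ≥ δ`) and all automorphisms `ψ` of `B` there are holomorphic `g_j` on the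
whole ball with `|g_j| ≤ C` and `|∑ f_j g_j - 1| ≤ ε` on `ψ⁻¹(X)`.

Examples for `X`: a Koranyi region (`ψ` unitary: the constant is the same for all vertices), a
finite union of Koranyi regions, the tubes `|1 - z₀²| ≤ α (1 - |z|²)` around the geodesic from
`(-1, 0, …, 0)` to `(1, 0, …, 0)` (`on_tubes`; with `ψ` the tubes around all geodesics that join two
boundary points).

Proof. Put `e = ((1 - z₀)/(1 + z₀))^i` and `w_i = z_i/√(1 - z₀²)`. The key point
(`Pool.Agent.H326R3.CB.key`): a bounded holomorphic function which vanishes on the orbit of `a ∈ B`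
under the dilations `e^{2πk}`, `k ∈ ℤ`, which fix `± (1, 0, …, 0)`, is in the ideal generated by
`e - e(a)`, `w_i - w_i(a)`: one multiplies with the holomorphic partition of unity
`∑ K(s - 2πk) K(2πk - s) = 1`, `K(s) = (exp (is) - 1)/(is)`, and uses at each scale the Leibenson
solution of the Gleason problem. The orbit is interpolating, so that all corona data become solvable
with bounds after these `n + 1` functions are added (`modulo_special_functions`). Hence no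
character `χ` of `H^∞(B)` with `∑ |χ(w_i)|² < cos (log |χ(e)|)` annihilates corona data, and the
characters of the uniform closure of (bounded sequences in) `H^∞(B)` on `X` are of this kind.
-/

set_option autoImplicit false

open Metric Set Filter Topology
open Pool.Agent.H720R2.Cor (Ball IsAutomorphism)

namespace Pool.Agent.Results.MP_ca0fc2_an.KoranyiRegions

/-- **Arbitrary corona data on the ball are solvable up to `ε` on sets that approach the sphere
inside Koranyi regions, with uniform bounds.** -/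
theorem result (n N : ℕ) (δ : ℝ) (hδ : 0 < δ) (ε : ℝ) (hε : 0 < ε)
    (X : Set (Fin (n + 1) → ℂ))
    (hX : ∀ p : Fin (n + 1) → ℂ, ∑ i, ‖p i‖ ^ 2 = 1 → ∃ α : ℝ, ∀ᶠ z in 𝓝 p, z ∈ X →
      ‖1 - ∑ i, z i * starRingEnd ℂ (p i)‖ ≤ α * (1 - ∑ i, ‖z i‖ ^ 2)) :
    ∃ C : ℝ, ∀ ψ : (Fin (n + 1) → ℂ) → (Fin (n + 1) → ℂ), IsAutomorphism ψ →
      ∀ f : Fin N → (Fin (n + 1) → ℂ) → ℂ, (∀ j, DifferentiableOn ℂ (f j) (Ball (n + 1))) →
      (∀ j, ∀ z ∈ Ball (n + 1), ‖f j z‖ ≤ 1) → (∀ z ∈ Ball (n + 1), δ ≤ ∑ j, ‖f j z‖) →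
      ∃ g : Fin N → (Fin (n + 1) → ℂ) → ℂ, (∀ j, DifferentiableOn ℂ (g j) (Ball (n + 1))) ∧
        (∀ j, ∀ z ∈ Ball (n + 1), ‖g j z‖ ≤ C) ∧
        ∀ z ∈ Ball (n + 1), ψ z ∈ X → ‖∑ j, f j z * g j z - 1‖ ≤ ε :=
  Pool.Agent.H326R3.CB.final n N δ hδ ε hε X hX

/-- Example: the tubes around the geodesics that join two boundary points. -/
theorem on_tubes (n N : ℕ) (δ : ℝ) (hδ : 0 < δ) (α ε : ℝ) (hε : 0 < ε) :
    ∃ C : ℝ, ∀ ψ : (Fin (n + 1) → ℂ) → (Fin (n + 1) → ℂ), IsAutomorphism ψ →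
      ∀ f : Fin N → (Fin (n + 1) → ℂ) → ℂ, (∀ j, DifferentiableOn ℂ (f j) (Ball (n + 1))) →
      (∀ j, ∀ z ∈ Ball (n + 1), ‖f j z‖ ≤ 1) → (∀ z ∈ Ball (n + 1), δ ≤ ∑ j, ‖f j z‖) →
      ∃ g : Fin N → (Fin (n + 1) → ℂ) → ℂ, (∀ j, DifferentiableOn ℂ (g j) (Ball (n + 1))) ∧
        (∀ j, ∀ z ∈ Ball (n + 1), ‖g j z‖ ≤ C) ∧
        ∀ z ∈ Ball (n + 1), ‖1 - ψ z 0 ^ 2‖ ≤ α * (1 - ∑ i, ‖ψ z i‖ ^ 2) →
          ‖∑ j, f j z * g j z - 1‖ ≤ ε :=
  Pool.Agent.H326R3.CB.tubes n N δ hδ α ε hε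

/-- The main step: arbitrary corona data become solvable, with bounds, when the `n + 1` functions
`((1 - z₀)/(1 + z₀))^i - c₀`, `z_i/√(1 - z₀²) - c_i` are added, where `c₀, c_i` are the values of
these functions at any point `a` of the ball. -/
theorem modulo_special_functions (n N : ℕ) (δ : ℝ) (hδ : 0 < δ) (a : Fin (n + 1) → ℂ)
    (ha : a ∈ Ball (n + 1)) :
    ∃ C : ℝ, ∀ f : Fin N → (Fin (n + 1) → ℂ) → ℂ,
      (∀ j, DifferentiableOn ℂ (f j) (Ball (n + 1))) →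
      (∀ j, ∀ z ∈ Ball (n + 1), ‖f j z‖ ≤ 1) → (∀ z ∈ Ball (n + 1), δ ≤ ∑ j, ‖f j z‖) →
      ∃ (g : Fin N → (Fin (n + 1) → ℂ) → ℂ) (u₀ : (Fin (n + 1) → ℂ) → ℂ)
        (u : Fin n → (Fin (n + 1) → ℂ) → ℂ),
        (∀ j, DifferentiableOn ℂ (g j) (Ball (n + 1))) ∧ DifferentiableOn ℂ u₀ (Ball (n + 1)) ∧
        (∀ i, DifferentiableOn ℂ (u i) (Ball (n + 1))) ∧
        (∀ z ∈ Ball (n + 1), (∀ j, ‖g j z‖ ≤ C) ∧ ‖u₀ z‖ ≤ C ∧ ∀ i, ‖u i z‖ ≤ C) ∧
        ∀ z ∈ Ball (n + 1), ∑ j, f j z * g j z +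
          (Complex.exp (Complex.I * (Complex.log (1 - z 0) - Complex.log (1 + z 0))) -
            Complex.exp (Complex.I * (Complex.log (1 - a 0) - Complex.log (1 + a 0)))) * u₀ z +
          ∑ i : Fin n, (z i.succ / Complex.exp ((Complex.log (1 - z 0) + Complex.log (1 + z 0)) / 2)
            - a i.succ / Complex.exp ((Complex.log (1 - a 0) + Complex.log (1 + a 0)) / 2)) *
              u i z = 1 :=
  Pool.Agent.H326R3.CB.special n N δ hδ a ha

end Pool.Agent.Results.MP_ca0fc2_an.KoranyiRegions
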