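import Mathlib
import Pool.Agent.H326R3.CB6

/-!
# The corona theorem on the ball for data that are locally functions of one variable, up to one
function

`Ball m` is the open Euclidean unit ball of `ℂᵐ`, and `IsAutomorphism ψ` says that `ψ` is a
holomorphic automorphism of it. We write `⟨z,a⟩ = ∑ z_i conj (a_i)`.

Let `f_1, …, f_N` be bounded holomorphic functions on the ball without common zero. Suppose that
for every `p` with `|p| = 1` there are an automorphism `ψ` for which `z → p` (`z` in the ball) is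
equivalent to `ψ(z)_0 → 1`, an index `k`, a finite set `S` of indices and `c > 0` with
`|f_k| + ∑_{j ∈ S} |f_j| ≥ c` near `p`, such that every `f_j`, `j ∈ S`, is asymptotic at `p` to a
bounded holomorphic function of `ψ(z)_0`. Then `∑ f_j g_j = 1` has a bounded holomorphic
solution. The exceptional function `f_k` is arbitrary and may change with `p`.

Examples: for every `p` there is an automorphism `ψ` as above with `ψ(z)_0 = ⟨z,p⟩`
(`unitary_peaks`). The corona theorem holds for data `f_1, …, f_N, G` with `G` arbitrary and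
`f_1, …, f_N` in the algebra generated by the ball algebra and by all bounded holomorphic functions
of one variable `⟨z,a⟩`, `|a| = 1`, in all directions `a` (`generated_algebra`).

Proof: the Banach algebra `H^∞` of the ball (`CB2`), its characters over interior points (`CB1`,
`CB3`; Leibenson's solution of the Gleason problem with a uniform bound), its characters over
boundary points (`CB3`), and the corona theorem for functions of one coordinate and one arbitrary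
function (`Pool.Agent.H720R2.HP.oneCoord`) as local input (`CB5`).
-/

set_option autoImplicit false

open Metric Set Filter Topology
open Pool.Agent.H720R2.Cor (Ball IsAutomorphism)

namespace Pool.Agent.Results.MP_ca0fc2_an.LocallyOneVariable

/-- For `z` in the ball, `z` tends to `p` if and only if the first coordinate of `ψ z` tends to
`1`. -/
def Peaks {n : ℕ} (ψ : (Fin (n + 1) → ℂ) → (Fin (n + 1) → ℂ)) (p : Fin (n + 1) → ℂ) : Prop :=
  𝓝[Ball (n + 1)] p = 𝓟 (Ball (n + 1)) ⊓ comap (fun z => ψ z 0) (𝓝 1)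

/-- `f` is asymptotic at `p` to a bounded holomorphic function of the first coordinate of `ψ z`. -/
def OneVariableAt {n : ℕ} (f : (Fin (n + 1) → ℂ) → ℂ) (ψ : (Fin (n + 1) → ℂ) → (Fin (n + 1) → ℂ))
    (p : Fin (n + 1) → ℂ) : Prop :=
  ∃ h : ℂ → ℂ, DifferentiableOn ℂ h (ball 0 1) ∧ (∃ M : ℝ, ∀ w ∈ ball (0 : ℂ) 1, ‖h w‖ ≤ M) ∧
    Tendsto (fun z => f z - h (ψ z 0)) (𝓝[Ball (n + 1)] p) (𝓝 0)

/-- **Corona theorem on the ball for bounded holomorphic functions which near each boundary point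
contain a datum with at most one function that is not asymptotically of one variable.** -/
theorem result (n N : ℕ) (f : Fin N → (Fin (n + 1) → ℂ) → ℂ)
    (hd : ∀ j, DifferentiableOn ℂ (f j) (Ball (n + 1)))
    (hb : ∀ j, ∃ M : ℝ, ∀ z ∈ Ball (n + 1), ‖f j z‖ ≤ M)
    (hz : ∀ z ∈ Ball (n + 1), ∃ j, f j z ≠ 0)
    (hp : ∀ p : Fin (n + 1) → ℂ, ∑ i, ‖p i‖ ^ 2 = 1 →
      ∃ ψ : (Fin (n + 1) → ℂ) → (Fin (n + 1) → ℂ), IsAutomorphism ψ ∧ Peaks ψ p ∧
        ∃ (k : Fin N) (S : Finset (Fin N)) (c : ℝ), 0 < c ∧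
          (∀ᶠ z in 𝓝[Ball (n + 1)] p, c ≤ ‖f k z‖ + ∑ j ∈ S, ‖f j z‖) ∧
          ∀ j ∈ S, OneVariableAt (f j) ψ p) :
    ∃ g : Fin N → (Fin (n + 1) → ℂ) → ℂ,
      (∀ j, DifferentiableOn ℂ (g j) (Ball (n + 1))) ∧
      (∃ C : ℝ, ∀ j, ∀ z ∈ Ball (n + 1), ‖g j z‖ ≤ C) ∧
      ∀ z ∈ Ball (n + 1), ∑ j, f j z * g j z = 1 :=
  Pool.Agent.H326R3.CB.corona2 n N f hd hb hz hp

/-- For every boundary point `p` there is an automorphism `ψ` with `ψ(z)_0 = ⟨z,p⟩` that peaks at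
`p`. -/
theorem unitary_peaks (n : ℕ) (p : Fin (n + 1) → ℂ) (hp : ∑ i, ‖p i‖ ^ 2 = 1) :
    ∃ ψ : (Fin (n + 1) → ℂ) → (Fin (n + 1) → ℂ), IsAutomorphism ψ ∧
      (∀ z, ψ z 0 = ∑ i, z i * starRingEnd ℂ (p i)) ∧ Peaks ψ p :=
  Pool.Agent.H326R3.CB.peak_unitary p hp

/-- The functions that extend continuously to the closed ball, and the bounded holomorphic functions
of one variable `∑ z_i conj (a_i)`, `|a| = 1`. -/
def Generators (n : ℕ) : Set ((Fin (n + 1) → ℂ) → ℂ) :=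
  {f | ContinuousOn f {z | ∑ i, ‖z i‖ ^ 2 ≤ 1} ∧ DifferentiableOn ℂ f (Ball (n + 1))} ∪
  {f | ∃ (a : Fin (n + 1) → ℂ) (h : ℂ → ℂ), ∑ i, ‖a i‖ ^ 2 = 1 ∧
    DifferentiableOn ℂ h (ball 0 1) ∧ (∃ M : ℝ, ∀ w ∈ ball (0 : ℂ) 1, ‖h w‖ ≤ M) ∧
    f = fun z => h (∑ i, z i * starRingEnd ℂ (a i))}

/-- The corona theorem for the algebra generated by the ball algebra and the functions of one
variable, together with one arbitrary function. -/
theorem generated_algebra (n N : ℕ) (f : Fin N → (Fin (n + 1) → ℂ) → ℂ)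
    (G : (Fin (n + 1) → ℂ) → ℂ) (hf : ∀ j, f j ∈ Algebra.adjoin ℂ (Generators n))
    (hG : DifferentiableOn ℂ G (Ball (n + 1))) (hGb : ∃ M : ℝ, ∀ z ∈ Ball (n + 1), ‖G z‖ ≤ M)
    (δ : ℝ) (hδ : 0 < δ) (hc : ∀ z ∈ Ball (n + 1), δ ≤ ∑ j, ‖f j z‖ + ‖G z‖) :
    ∃ (g : Fin N → (Fin (n + 1) → ℂ) → ℂ) (g₀ : (Fin (n + 1) → ℂ) → ℂ),
      (∀ j, DifferentiableOn ℂ (g j) (Ball (n + 1))) ∧ DifferentiableOn ℂ g₀ (Ball (n + 1)) ∧
      (∃ C : ℝ, (∀ j, ∀ z ∈ Ball (n + 1), ‖g j z‖ ≤ C) ∧ ∀ z ∈ Ball (n + 1), ‖g₀ z‖ ≤ C) ∧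
      ∀ z ∈ Ball (n + 1), ∑ j, f j z * g j z + G z * g₀ z = 1 :=
  Pool.Agent.H326R3.CB.corona3 n N f G hf hG hGb δ hδ hc

end Pool.Agent.Results.MP_ca0fc2_an.LocallyOneVariable
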